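import Pool.Agent.Lib.Tsirelson
import Pool.Agent.H30.TsirelsonMain

set_option autoImplicit false

open Pool.Agent.Lib.Tsirelson

/-- Tsirelson space exists, and its unit vector basis has the factorization property: the identity
factors through every bounded linear operator on `T` with large diagonal. -/
theorem Pool.Agent.Results.MP_ebc7ea_an.TsirelsonFactorization.result :
    (∃ (X : Type) (_ : NormedAddCommGroup X) (_ : NormedSpace ℝ X) (_ : CompleteSpace X)
      (e : ℕ+ → X), IsTsirelsonBasis e) ∧
    ∀ (X : Type) [NormedAddCommGroup X] [NormedSpace ℝ X] [CompleteSpace X] (e : ℕ+ → X),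
      IsTsirelsonBasis e → FactorizationProperty e :=
  ⟨Pool.Agent.H30.Tsirelson.exists_tsirelson,
    fun _ _ _ _ _ he => Pool.Agent.H30.Tsirelson.factorization he⟩
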